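import Pool.Agent.H87.EBK.Stmts

set_option autoImplicit false

namespace Pool.EBK

theorem fer : FER := by
  rintro a b c ⟨ha, hb, s, hs⟩ hc
  have hb0 : b ≠ 0 := hb.ne'
  have hc0 : c ≠ 0 := by
    rintro rfl
    have : 0 < a * b := mul_pos ha hb
    nlinarith
  set q : ℚ := c / b with hq
  have hq0 : q ≠ 0 := div_ne_zero hc0 hb0
  have hnum : q.num ≠ 0 := Rat.num_ne_zero.2 hq0
  have hden : (q.den : ℤ) ≠ 0 := by exact_mod_cast q.den_ne_zero
  have hdenQ : (q.den : ℚ) ≠ 0 := by exact_mod_cast q.den_ne_zero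
  have e1 : q ^ 4 + 1 = (s / b) ^ 2 := by
    rw [hq, div_pow, div_pow]
    have : c ^ 4 = (a * b) ^ 2 := by rw [← hc]; ring
    rw [this]
    field_simp
    linarith
  have e2 : ((q.num ^ 4 + (q.den : ℤ) ^ 4 : ℤ) : ℚ) = (s / b * (q.den : ℚ) ^ 2) ^ 2 := by
    have e3 : (q.num : ℚ) = q * q.den := by
      rw [Rat.mul_den_eq_num]
    push_cast
    rw [e3, mul_pow (s / b), ← e1]
    ring
  have e4 : IsSquare ((q.num ^ 4 + (q.den : ℤ) ^ 4 : ℤ) : ℚ) := by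
    rw [e2]
    exact ⟨_, sq _⟩
  rw [Rat.isSquare_intCast_iff] at e4
  obtain ⟨t, ht⟩ := e4
  exact not_fermat_42 hnum hden (by rw [ht, sq] : q.num ^ 4 + (q.den : ℤ) ^ 4 = t ^ 2)

end Pool.EBK
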